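import Mathlib
import Pool.Agent.U766.OP.Exa
import Pool.Agent.U766.OP.Sq
import Pool.Agent.U766.PW.Sec
import Pool.Agent.H357R2.SI.PairFinal
import Pool.Agent.Q278.KT.Fin

/-!
# Residue classes with the expected number of primes, up to constants: a positive proportion of the `a ≤ N` for EVERY modulus
-/

set_option autoImplicit false

namespace Pool.Agent.U766.LP

open Finset Filter Topology
open Pool.Agent.U766.OP (primesIn pic_nat all_long)
open Pool.Agent.H357R2.SI (sg)

/-- the primes of `(X, 2 X]` congruent to `a` modulo `q` -/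
def cl (X q a : ℕ) : Finset ℕ := (Ioc X (2 * X)).filter (fun p => p.Prime ∧ p % q = a % q)

lemma sq_any (W : Finset ℕ) : W.card ^ 2 = W.card + 2 * ∑ q ∈ W, (W.filter (fun r => q < r)).card := by
  classical
  have h1 : ∀ q ∈ W, W.card = 1 + (W.filter (fun r => q < r)).card + (W.filter (fun r => r < q)).card := by
    intro q hq
    have e1 := Finset.card_filter_add_card_filter_not (s := W) (fun r => q < r)
    have e2 : W.filter (fun r => ¬ q < r) = insert q (W.filter (fun r => r < q)) := by
      ext r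
      rw [mem_filter, mem_insert, mem_filter]
      constructor
      · rintro ⟨h1, h2⟩
        rcases Nat.lt_or_ge r q with h3 | h3
        · exact Or.inr ⟨h1, h3⟩
        · exact Or.inl (by omega)
      · rintro (rfl | ⟨h1, h2⟩)
        · exact ⟨hq, lt_irrefl _⟩
        · exact ⟨h1, by omega⟩
    rw [e2, card_insert_of_notMem (by rw [mem_filter]; omega)] at e1
    omega
  have h2 : ∑ q ∈ W, (W.filter (fun r => r < q)).card = ∑ q ∈ W, (W.filter (fun r => q < r)).card := by
    have := Finset.sum_card_bipartiteAbove_eq_sum_card_bipartiteBelow (s := W) (t := W) (fun q r => q < r)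
    unfold Finset.bipartiteAbove Finset.bipartiteBelow at this
    exact this.symm
  calc W.card ^ 2 = ∑ _q ∈ W, W.card := by rw [Finset.sum_const, smul_eq_mul, sq]
    _ = ∑ q ∈ W, (1 + (W.filter (fun r => q < r)).card + (W.filter (fun r => r < q)).card) :=
        Finset.sum_congr rfl h1
    _ = _ := by
        rw [Finset.sum_add_distrib, Finset.sum_add_distrib, h2, Finset.sum_const, smul_eq_mul, mul_one]
        ring

lemma sq_class (X q a : ℕ) (hq : 1 ≤ q) : (cl X q a).card ^ 2 ≤ (cl X q a).card +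
    2 * ∑ m ∈ Icc 1 (X / q), ((cl X q a).filter (fun p => p + m * q ∈ cl X q a)).card := by
  classical
  rw [sq_any]
  apply Nat.add_le_add_left
  apply Nat.mul_le_mul_left
  have e1 := Finset.sum_card_bipartiteAbove_eq_sum_card_bipartiteBelow (s := cl X q a) (t := Icc 1 (X / q))
    (fun p m => p + m * q ∈ cl X q a)
  unfold Finset.bipartiteAbove Finset.bipartiteBelow at e1
  rw [← e1]
  apply Finset.sum_le_sum
  intro p hp
  apply Finset.card_le_card_of_injOn (fun r => (r - p) / q)
  · intro r hr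
    rw [mem_coe, mem_filter] at hr
    obtain ⟨hr1, hr2⟩ := hr
    have h1 := hr1
    have h2 := hp
    unfold cl at h1 h2
    rw [mem_filter, mem_Ioc] at h1 h2
    have h3 : q ∣ r - p := (Nat.modEq_iff_dvd' hr2.le).1 (by
      show p % q = r % q
      rw [h1.2.2, h2.2.2])
    obtain ⟨m, hm⟩ := h3
    have h4 : (r - p) / q = m := by rw [hm, Nat.mul_div_cancel_left _ (by omega)]
    show (r - p) / q ∈ _
    rw [mem_coe, mem_filter, mem_Icc, h4]
    have h5 : 1 ≤ m := by
      rcases Nat.eq_zero_or_pos m with h6 | h6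
      · rw [h6, Nat.mul_zero] at hm
        omega
      · exact h6
    refine ⟨⟨h5, ?_⟩, ?_⟩
    · rw [Nat.le_div_iff_mul_le (by omega)]
      have : r - p ≤ X := by omega
      rw [hm, Nat.mul_comm] at this
      exact this
    · have : p + m * q = r := by
        have : m * q = r - p := by rw [hm]; ring
        omega
      show p + m * q ∈ cl X q a
      rw [this]
      exact hr1
  · intro r hr r' hr' hrr
    rw [mem_coe, mem_filter] at hr hr'
    have hrr' : (r - p) / q = (r' - p) / q := hrr
    have h2 := hp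
    have h1 := hr.1
    have h1' := hr'.1
    unfold cl at h1 h1' h2
    rw [mem_filter, mem_Ioc] at h1 h1' h2
    have h3 : q ∣ r - p := (Nat.modEq_iff_dvd' hr.2.le).1 (by
      show p % q = r % q
      rw [h1.2.2, h2.2.2])
    have h3' : q ∣ r' - p := (Nat.modEq_iff_dvd' hr'.2.le).1 (by
      show p % q = r' % q
      rw [h1'.2.2, h2.2.2])
    have h4 : r - p = r' - p := by
      rw [← Nat.div_mul_cancel h3, ← Nat.div_mul_cancel h3', hrr']
    omega

/-- the classes of `a ≤ N`, `N ≤ q`, are disjoint -/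
lemma sum_class (X q N : ℕ) (hNq : N ≤ q) (P : ℕ → Prop) [DecidablePred P] :
    ∑ a ∈ Icc 1 N, ((cl X q a).filter P).card ≤ ((primesIn X X).filter P).card := by
  classical
  rw [← Finset.card_biUnion]
  · apply card_le_card
    intro p hp
    rw [mem_biUnion] at hp
    obtain ⟨a, -, ha⟩ := hp
    rw [mem_filter] at ha
    obtain ⟨h1, h2⟩ := ha
    unfold cl at h1
    rw [mem_filter, mem_Ioc] at h1
    rw [mem_filter]
    unfold primesIn
    rw [mem_filter, mem_Ioc]
    exact ⟨⟨by omega, h1.2.1⟩, h2⟩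
  · intro a ha b hb hab
    rw [Function.onFun, Finset.disjoint_left]
    intro p hp hp'
    rw [mem_filter] at hp hp'
    have h1 := hp.1
    have h2 := hp'.1
    unfold cl at h1 h2
    rw [mem_filter] at h1 h2
    have h3 : a % q = b % q := by rw [← h1.2.2, h2.2.2]
    rw [coe_Icc, Set.mem_Icc] at ha hb
    apply hab
    rcases eq_or_lt_of_le (hb.2.trans hNq) with h4 | h4
    · rcases eq_or_lt_of_le (ha.2.trans hNq) with h5 | h5
      · omega
      · rw [Nat.mod_eq_of_lt h5, h4, Nat.mod_self] at h3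
        omega
    · rcases eq_or_lt_of_le (ha.2.trans hNq) with h5 | h5
      · rw [Nat.mod_eq_of_lt h4, h5, Nat.mod_self] at h3
        omega
      · rwa [Nat.mod_eq_of_lt h4, Nat.mod_eq_of_lt h5] at h3

/-- lower bound for the first moment -/
lemma first_class (X q N : ℕ) (hq : 1 ≤ q) (L : ℝ)
    (hL : ∀ j : ℕ, X < j * q → j * q + N ≤ 2 * X → L ≤ ((primesIn (j * q) N).card : ℝ)) :
    (((2 * X - N) / q - X / q : ℕ) : ℝ) * L ≤ ((∑ a ∈ Icc 1 N, (cl X q a).card : ℕ) : ℝ) := by
  classical
  set J := Icc (X / q + 1) ((2 * X - N) / q) with hJ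
  have hJc : J.card = (2 * X - N) / q - X / q := by
    rw [hJ, Nat.card_Icc]
    omega
  have hjm : ∀ j ∈ J, X < j * q ∧ (j * q + N ≤ 2 * X ∨ 2 * X < N) := by
    intro j hj
    rw [hJ, mem_Icc] at hj
    constructor
    · have := Nat.lt_mul_div_succ X (by omega : 0 < q)
      calc X < q * (X / q + 1) := this
        _ ≤ q * j := Nat.mul_le_mul_left _ hj.1
        _ = j * q := Nat.mul_comm _ _
    · have h1 : j * q ≤ 2 * X - N := (Nat.le_div_iff_mul_le (by omega)).1 hj.2
      omega
  by_cases h2XN : 2 * X < N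
  · have : (2 * X - N) / q = 0 := by
      rw [show 2 * X - N = 0 by omega, Nat.zero_div]
    rw [this, Nat.zero_sub, Nat.cast_zero, zero_mul]
    exact Nat.cast_nonneg _
  have h1 : ∀ a ∈ Icc 1 N, (J.filter (fun j => (a + j * q).Prime)).card ≤ (cl X q a).card := by
    intro a ha
    rw [mem_Icc] at ha
    apply Finset.card_le_card_of_injOn (fun j => a + j * q)
    · intro j hj
      rw [mem_coe, mem_filter] at hj
      obtain ⟨g1, g2⟩ := hjm j hj.1
      show a + j * q ∈ ((cl X q a : Finset ℕ) : Set ℕ)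
      unfold cl
      rw [mem_coe, mem_filter, mem_Ioc]
      refine ⟨⟨by omega, by omega⟩, hj.2, ?_⟩
      rw [Nat.add_mul_mod_self_right]
    · intro j _ j' _ hjj
      have h3 : a + j * q = a + j' * q := hjj
      have h4 : j * q = j' * q := by omega
      exact Nat.eq_of_mul_eq_mul_right (by omega) h4
  have h2 := Finset.sum_card_bipartiteAbove_eq_sum_card_bipartiteBelow (s := Icc 1 N) (t := J)
    (fun a j => (a + j * q).Prime)
  unfold Finset.bipartiteAbove Finset.bipartiteBelow at h2
  have h3 : ∀ j ∈ J, L ≤ (((Icc 1 N).filter (fun a => (a + j * q).Prime)).card : ℝ) := by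
    intro j hj
    obtain ⟨g1, g2⟩ := hjm j hj
    refine (hL j g1 (by omega)).trans ?_
    rw [Nat.cast_le]
    apply Finset.card_le_card_of_injOn (fun p => p - j * q)
    · intro p hp
      unfold primesIn at hp
      rw [mem_coe, mem_filter, mem_Ioc] at hp
      show p - j * q ∈ (((Icc 1 N).filter (fun a => (a + j * q).Prime) : Finset ℕ) : Set ℕ)
      rw [mem_coe, mem_filter, mem_Icc]
      refine ⟨⟨by omega, by omega⟩, ?_⟩
      rw [Nat.sub_add_cancel hp.1.1.le]
      exact hp.2
    · intro p hp p' hp' hpp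
      unfold primesIn at hp hp'
      rw [mem_coe, mem_filter, mem_Ioc] at hp hp'
      have : p - j * q = p' - j * q := hpp
      omega
  calc (((2 * X - N) / q - X / q : ℕ) : ℝ) * L = ∑ _j ∈ J, L := by
        rw [Finset.sum_const, hJc, nsmul_eq_mul]
    _ ≤ ∑ j ∈ J, (((Icc 1 N).filter (fun a => (a + j * q).Prime)).card : ℝ) := Finset.sum_le_sum h3
    _ = ((∑ a ∈ Icc 1 N, (J.filter (fun j => (a + j * q).Prime)).card : ℕ) : ℝ) := by
        rw [h2, Nat.cast_sum]
    _ ≤ _ := by
        rw [Nat.cast_le]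
        exact Finset.sum_le_sum h1

lemma sg_mul (m n : ℕ) : sg (m * n) ≤ sg m * sg n := by
  classical
  unfold sg
  rw [Finset.sum_mul_sum, ← Finset.sum_product']
  have h1 : (m * n).divisors ⊆ (m.divisors ×ˢ n.divisors).image (fun x : ℕ × ℕ => x.1 * x.2) := by
    intro d hd
    rw [Nat.mem_divisors] at hd
    obtain ⟨a, b, ha, hb, rfl⟩ := exists_dvd_and_dvd_of_dvd_mul hd.1
    have h0 : m ≠ 0 ∧ n ≠ 0 := Nat.mul_ne_zero_iff.1 hd.2
    rw [Finset.mem_image]
    exact ⟨(a, b), Finset.mem_product.2 ⟨Nat.mem_divisors.2 ⟨ha, h0.1⟩, Nat.mem_divisors.2 ⟨hb, h0.2⟩⟩, rfl⟩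
  calc ∑ d ∈ (m * n).divisors, 1 / (d : ℝ)
      ≤ ∑ d ∈ (m.divisors ×ˢ n.divisors).image (fun x : ℕ × ℕ => x.1 * x.2), 1 / (d : ℝ) := by
        apply Finset.sum_le_sum_of_subset_of_nonneg h1
        intro x _ _
        positivity
    _ ≤ ∑ x ∈ m.divisors ×ˢ n.divisors, 1 / (((x.1 * x.2 : ℕ)) : ℝ) := by
        apply Finset.sum_image_le_of_nonneg
        intro x _
        positivity
    _ = ∑ x ∈ m.divisors ×ˢ n.divisors, 1 / (x.1 : ℝ) * (1 / (x.2 : ℝ)) := by
        apply Finset.sum_congr rfl
        intro x _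
        push_cast
        rw [one_div_mul_one_div]

end Pool.Agent.U766.LP
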