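import Mathlib
import Pool.Agent.U766.LP.Cls

/-!
# For every modulus a positive proportion of the `a ≤ N` have the expected number of primes, up to constants
-/

set_option autoImplicit false

namespace Pool.Agent.U766.LP

open Finset Filter Topology
open Pool.Agent.U766.OP (primesIn pic_nat all_long)
open Pool.Agent.H357R2.SI (sg one_le_sg pair_sieve sum_sg_sq)

/-- `π(x; q, a)` -/
def pc (x q a : ℕ) : ℕ := ((Icc 1 x).filter (fun p => p.Prime ∧ p % q = a % q)).card

lemma cl_le_pc {X x q a : ℕ} (h : 2 * X ≤ x) : (cl X q a).card ≤ pc x q a := by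
  unfold pc cl
  apply card_le_card
  intro p hp
  rw [mem_filter, mem_Ioc] at hp
  rw [mem_filter, mem_Icc]
  exact ⟨by omega, hp.2⟩

lemma sum_pc (x q N : ℕ) (hNq : N ≤ q) : ∑ a ∈ Icc 1 N, pc x q a ≤ Nat.primeCounting x := by
  classical
  have h1 : ∑ a ∈ Icc 1 N, pc x q a ≤ ((Icc 1 x).filter Nat.Prime).card := by
    unfold pc
    rw [← Finset.card_biUnion]
    · apply card_le_card
      intro p hp
      rw [mem_biUnion] at hp
      obtain ⟨a, -, ha⟩ := hp
      rw [mem_filter] at ha ⊢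
      exact ⟨ha.1, ha.2.1⟩
    · intro a ha b hb hab
      rw [Function.onFun, Finset.disjoint_left]
      intro p hp hp'
      rw [mem_filter] at hp hp'
      have h3 : a % q = b % q := by rw [← hp.2.2, hp'.2.2]
      rw [coe_Icc, Set.mem_Icc] at ha hb
      apply hab
      rcases eq_or_lt_of_le (hb.2.trans hNq) with h4 | h4
      · rcases eq_or_lt_of_le (ha.2.trans hNq) with h5 | h5
        · omega
        · rw [Nat.mod_eq_of_lt h5, h4, Nat.mod_self] at h3
          omega
      · rcases eq_or_lt_of_le (ha.2.trans hNq) with h5 | h5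
        · rw [Nat.mod_eq_of_lt h4, h5, Nat.mod_self] at h3
          omega
        · rwa [Nat.mod_eq_of_lt h4, Nat.mod_eq_of_lt h5] at h3
  refine h1.trans ?_
  unfold Nat.primeCounting Nat.primeCounting'
  rw [Nat.count_eq_card_filter_range]
  apply card_le_card
  intro p hp
  rw [mem_filter, mem_Icc] at hp
  rw [mem_filter, mem_range]
  exact ⟨by omega, hp.2⟩

/-- sum of the squares -/
lemma second_class (X q N : ℕ) (hq : 1 ≤ q) (hNq : N ≤ q) :
    ∑ a ∈ Icc 1 N, (cl X q a).card ^ 2 ≤ (primesIn X X).card +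
      2 * ∑ m ∈ Icc 1 (X / q), ((Ioc X (X + X)).filter (fun n => n.Prime ∧ (n + m * q).Prime)).card := by
  classical
  calc ∑ a ∈ Icc 1 N, (cl X q a).card ^ 2
      ≤ ∑ a ∈ Icc 1 N, ((cl X q a).card +
        2 * ∑ m ∈ Icc 1 (X / q), ((cl X q a).filter (fun p => p + m * q ∈ cl X q a)).card) :=
        Finset.sum_le_sum fun a _ => sq_class X q a hq
    _ = ∑ a ∈ Icc 1 N, (cl X q a).card +
        2 * ∑ m ∈ Icc 1 (X / q), ∑ a ∈ Icc 1 N, ((cl X q a).filter (fun p => p + m * q ∈ cl X q a)).card := by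
        rw [Finset.sum_add_distrib, ← Finset.mul_sum, Finset.sum_comm]
    _ ≤ _ := by
        apply Nat.add_le_add
        · have h1 := sum_class X q N hNq (fun _ => True)
          have e1 : ∀ W : Finset ℕ, W.filter (fun _ => True) = W := fun W => filter_true_of_mem fun _ _ => trivial
          simp only [e1] at h1
          exact h1
        · apply Nat.mul_le_mul_left
          apply Finset.sum_le_sum
          intro m _
          have h1 := sum_class X q N hNq (fun p => (p + m * q).Prime)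
          refine le_trans (Finset.sum_le_sum fun a _ => card_le_card ?_) (h1.trans (card_le_card ?_))
          · intro p hp
            rw [mem_filter] at hp ⊢
            refine ⟨hp.1, ?_⟩
            have h2 := hp.2
            unfold cl at h2
            rw [mem_filter] at h2
            exact h2.2.1
          · intro p hp
            unfold primesIn at hp
            rw [mem_filter, mem_filter] at hp
            rw [mem_filter]
            exact ⟨hp.1.1, hp.1.2, hp.2⟩

open Classical in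
/-- **a positive proportion of good classes for every modulus** -/
theorem good_classes (κ C0 : ℝ) (hκ : 0 < κ) (hC0 : 1 ≤ C0) : ∃ c C p : ℝ, 0 < c ∧ 0 < C ∧ 0 < p ∧ ∃ N₀ : ℕ,
    ∀ N q x : ℕ, N₀ ≤ N → N ≤ q → q ≤ 2 * N → sg q ≤ C0 → κ * (N * Real.log N) ≤ x → (x : ℝ) ≤ (N : ℝ) ^ (1.6 : ℝ) →
      p * N ≤ (((Icc 1 N).filter (fun a => c * (x / (q * Real.log x)) ≤ (pc x q a : ℝ) ∧
        (pc x q a : ℝ) ≤ C * (x / (q * Real.log x)))).card : ℝ) := by
  obtain ⟨c1, δ, hc1, hδ, hδ1, hall⟩ := all_long Pool.Agent.Q278.KT.mainp_043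
    (by norm_num) (by norm_num) (by norm_num) (by norm_num)
  obtain ⟨C₅, hC₅, X₁, hup1⟩ := Pool.Agent.U766.PW.primes_up
  obtain ⟨Cp, hCp, X₂, hup2⟩ := pair_sieve
  obtain ⟨Cs, hCs, hsg⟩ := sum_sg_sq
  obtain ⟨C₃, hC₃⟩ : ∃ C₃ : ℝ, C₃ = 4 * C₅ / κ + 2 * Cp * C0 ^ 2 * Cs := ⟨_, rfl⟩
  have hC₃0 : 0 < C₃ := by rw [hC₃]; positivity
  obtain ⟨K, hK⟩ : ∃ K : ℝ, K = 96 * C₃ / c1 := ⟨_, rfl⟩
  have hK0 : 0 < K := by rw [hK]; positivity
  obtain ⟨C, hC⟩ : ∃ C : ℝ, C = 192 * K / c1 := ⟨_, rfl⟩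
  have hC0' : 0 < C := by rw [hC]; positivity
  have hpi := Chebyshev.eventually_primeCounting_le (ε := 0.6) (by norm_num)
  have hlog4 : Real.log 4 ≤ 1.4 := by
    rw [show (4 : ℝ) = 2 ^ 2 by norm_num, Real.log_pow]
    have := Real.log_two_lt_d9
    push_cast
    linarith
  have tn : Tendsto (fun n : ℕ => (n : ℝ)) atTop atTop := tendsto_natCast_atTop_atTop
  have tlog : Tendsto (fun n : ℕ => Real.log n) atTop atTop := Real.tendsto_log_atTop.comp tn
  obtain ⟨y0, hy0⟩ := eventually_atTop.1 (hall.and (hpi.and (eventually_ge_atTop (max X₁ (max X₂ 16) : ℝ))))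
  obtain ⟨N₀, hN₀⟩ := eventually_atTop.1 ((tlog.eventually_ge_atTop (30 / κ)).and
    ((tn.eventually_ge_atTop y0).and (eventually_ge_atTop 16)))
  refine ⟨c1 / 48, C, c1 / 48 / K, by positivity, hC0', by positivity, N₀, fun N q x hN hNq hqN hsgq hx hx2 => ?_⟩
  obtain ⟨b1, b2, b3⟩ := hN₀ N hN
  have hN16 : (16 : ℝ) ≤ N := by exact_mod_cast b3
  have hN0 : (0 : ℝ) < N := by linarith
  have hx30 : 30 * (N : ℝ) ≤ x := by
    refine le_trans ?_ hx
    calc 30 * (N : ℝ) = κ * (N * (30 / κ)) := by field_simp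
      _ ≤ κ * (N * Real.log N) := by gcongr
  have hxN : 30 * N ≤ x := by exact_mod_cast hx30
  obtain ⟨X, hX⟩ : ∃ X : ℕ, X = x / 2 := ⟨_, rfl⟩
  have hX2 : 2 * X ≤ x := by omega
  have hX3 : x ≤ 3 * X := by omega
  have hX6 : 10 * N ≤ X := by omega
  have hX2' : 2 * (X : ℝ) ≤ x := by exact_mod_cast hX2
  have hX3' : (x : ℝ) ≤ 3 * X := by exact_mod_cast hX3
  have hX6' : 10 * (N : ℝ) ≤ X := by exact_mod_cast hX6
  have hNq' : (N : ℝ) ≤ q := by exact_mod_cast hNq
  have hqN' : (q : ℝ) ≤ 2 * N := by exact_mod_cast hqN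
  have hq0 : (0 : ℝ) < q := by linarith
  have hq1 : 1 ≤ q := by omega
  obtain ⟨g1, g2, g3⟩ := hy0 X (by linarith)
  obtain ⟨-, g2', -⟩ := hy0 x (by linarith)
  have g4 : (X₁ : ℝ) ≤ X ∧ (X₂ : ℝ) ≤ X ∧ (16 : ℝ) ≤ X := by
    simp only [max_le_iff] at g3
    exact ⟨g3.1, g3.2.1, g3.2.2⟩
  obtain ⟨L, hL⟩ : ∃ L : ℝ, L = Real.log x := ⟨_, rfl⟩
  have hX0 : (0 : ℝ) < X := by linarith
  have hx0 : (0 : ℝ) < x := by linarith
  have hlogN : 0 < Real.log N := Real.log_pos (by linarith)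
  have hLN : Real.log N ≤ L := by rw [hL]; exact Real.log_le_log hN0 (by linarith)
  have hL0 : 0 < L := by linarith
  have hLN2 : L ≤ 2 * Real.log N := by
    rw [hL]
    calc Real.log x ≤ Real.log ((N : ℝ) ^ (1.6 : ℝ)) := Real.log_le_log hx0 hx2
      _ = 1.6 * Real.log N := Real.log_rpow hN0 _
      _ ≤ 2 * Real.log N := by gcongr; norm_num
  have hLX : Real.log X ≤ L := by rw [hL]; exact Real.log_le_log hX0 (by linarith)
  have hLX2 : L / 2 ≤ Real.log X := by
    have h1 : Real.log ((x : ℝ)) ≤ Real.log ((X : ℝ) ^ 2) := Real.log_le_log hx0 (by nlinarith [g4.2.2])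
    rw [Real.log_pow, ← hL] at h1
    push_cast at h1
    linarith
  have hlX0 : 0 < Real.log X := by linarith
  obtain ⟨V, hV⟩ : ∃ V : ℝ, V = (x : ℝ) / (q * L) := ⟨_, rfl⟩
  have hV0 : 0 < V := by rw [hV]; positivity
  have hqV : (q : ℝ) * V = x / L := by rw [hV]; field_simp
  have hVκ : κ / 4 ≤ V := by
    rw [hV, le_div_iff₀ (by positivity)]
    calc κ / 4 * (q * L) ≤ κ / 4 * ((2 * N) * (2 * Real.log N)) := by gcongr
      _ = κ * (N * Real.log N) := by ring
      _ ≤ x := hx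
  rw [← hL, ← hV]
  -- first moment
  have hM1 : c1 / 12 * (N * V) ≤ ((∑ a ∈ Icc 1 N, (cl X q a).card : ℕ) : ℝ) := by
    have h1 := first_class X q N hq1 (c1 * N / Real.log X) (by
      intro j hj1 hj2
      have h2 := g1 ((j * q : ℕ) : ℝ) N (by exact_mod_cast hj1.le) (by
        have : ((j * q : ℕ) : ℝ) + N ≤ 2 * X := by exact_mod_cast hj2
        linarith) (by
        calc (X : ℝ) ^ (1 - 0.43 + 0.045 - δ) ≤ ((N : ℝ) ^ (1.6 : ℝ)) ^ (1 - 0.43 + 0.045 - δ) := by
              apply Real.rpow_le_rpow hX0.le (by linarith) (by linarith)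
          _ = (N : ℝ) ^ (1.6 * (1 - 0.43 + 0.045 - δ)) := by rw [← Real.rpow_mul hN0.le]
          _ ≤ (N : ℝ) ^ (1 : ℝ) := by
              apply Real.rpow_le_rpow_of_exponent_le (by linarith)
              linarith
          _ = N := Real.rpow_one _)
      rwa [pic_nat] at h2)
    refine le_trans ?_ h1
    have hcount : (X : ℝ) / (2 * q) ≤ (((2 * X - N) / q - X / q : ℕ) : ℝ) := by
      have e1 : (((2 * X - N) / q : ℕ) : ℝ) ≤ (((2 * X - N) / q - X / q : ℕ) : ℝ) + ((X / q : ℕ) : ℝ) := by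
        exact_mod_cast (by omega : (2 * X - N) / q ≤ ((2 * X - N) / q - X / q) + X / q)
      have e2 : ((X / q : ℕ) : ℝ) ≤ X / q := Nat.cast_div_le
      have e3 : ((2 * X - N : ℕ) : ℝ) / q - 1 ≤ (((2 * X - N) / q : ℕ) : ℝ) := by
        have h4 := Nat.lt_div_mul_add (a := 2 * X - N) (b := q) (by omega)
        have h5 : ((2 * X - N : ℕ) : ℝ) < (((2 * X - N) / q : ℕ) : ℝ) * q + q := by exact_mod_cast h4
        have h6 : ((2 * X - N : ℕ) : ℝ) / q < (((2 * X - N) / q : ℕ) : ℝ) + 1 := by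
          rw [div_lt_iff₀ hq0]
          linarith
        linarith
      have e4 : ((2 * X - N : ℕ) : ℝ) = 2 * X - N := by
        rw [Nat.cast_sub (by omega)]
        push_cast
        ring
      rw [e4] at e3
      have e5 : (X : ℝ) / (2 * q) ≤ (2 * X - N) / q - 1 - X / q := by
        rw [div_sub_one hq0.ne', ← sub_div, div_le_div_iff₀ (by positivity) hq0]
        nlinarith
      linarith
    calc c1 / 12 * (N * V) = c1 / 12 * N * (x / (q * L)) := by rw [hV]; ring
      _ ≤ c1 / 12 * N * ((6 * (X / (2 * q))) / L) := by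
          have : (x : ℝ) / (q * L) ≤ (6 * (X / (2 * q))) / L := by
            rw [div_le_div_iff₀ (by positivity) hL0]
            have e6 : 6 * ((X : ℝ) / (2 * q)) * (q * L) = 3 * X * L := by field_simp; ring
            rw [e6]
            gcongr
          gcongr
      _ = c1 / 2 * (X / (2 * q)) * (N / L) := by ring
      _ ≤ 1 * c1 * (X / (2 * q)) * (N / L) := by
          have : 0 ≤ c1 * ((X : ℝ) / (2 * q)) * (N / L) := by positivity
          nlinarith
      _ = (X / (2 * q)) * (c1 * N / L) := by ring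
      _ ≤ (X / (2 * q)) * (c1 * N / Real.log X) := by gcongr
      _ ≤ _ := by gcongr
  -- second moment
  have hM2 : ((∑ a ∈ Icc 1 N, (cl X q a).card ^ 2 : ℕ) : ℝ) ≤ 2 * C₃ * (N * V ^ 2) := by
    have h1 : ((∑ a ∈ Icc 1 N, (cl X q a).card ^ 2 : ℕ) : ℝ) ≤ _ := Nat.cast_le.2 (second_class X q N hq1 hNq)
    refine h1.trans ?_
    push_cast
    have e1 := hup1 X X (by exact_mod_cast g4.1) le_rfl
    have e2 : ((primesIn X X).card : ℝ) ≤ 4 * C₅ / κ * (q * V ^ 2) := by
      calc ((primesIn X X).card : ℝ) ≤ C₅ * (X / Real.log X) := e1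
        _ ≤ C₅ * (x / L) := by
          gcongr C₅ * ?_
          rw [div_le_div_iff₀ hlX0 hL0]
          nlinarith
        _ = C₅ * (q * V) := by rw [hqV]
        _ = C₅ * (q * V) * (4 / κ * (κ / 4)) := by field_simp
        _ ≤ C₅ * (q * V) * (4 / κ * V) := by gcongr
        _ = 4 * C₅ / κ * (q * V ^ 2) := by ring
    have e3 : ∀ m ∈ Icc 1 (X / q), (((Ioc X (X + X)).filter (fun n => n.Prime ∧ (n + m * q).Prime)).card : ℝ) ≤
        Cp * C0 ^ 2 * (X / Real.log X ^ 2) * sg m ^ 2 := by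
      intro m hm
      rw [mem_Icc] at hm
      have h2 := hup2 (m * q) X X (Nat.mul_pos (by omega) (by omega)) (by exact_mod_cast g4.2.1)
      refine h2.trans ?_
      have h3 : sg (m * q) ≤ sg m * C0 := by
        refine (sg_mul m q).trans ?_
        have := one_le_sg (show 0 < m by omega)
        gcongr
      have h4 : 0 ≤ sg (m * q) := by
        have := one_le_sg (Nat.mul_pos (show 0 < m by omega) (show 0 < q by omega))
        linarith
      calc Cp * sg (m * q) ^ 2 * X / Real.log X ^ 2 ≤ Cp * (sg m * C0) ^ 2 * X / Real.log X ^ 2 := by gcongr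
        _ = _ := by ring
    have e4 : ∑ m ∈ Icc 1 (X / q), (((Ioc X (X + X)).filter (fun n => n.Prime ∧ (n + m * q).Prime)).card : ℝ) ≤
        Cp * C0 ^ 2 * Cs * (q * V ^ 2) := by
      refine (Finset.sum_le_sum e3).trans ?_
      rw [← Finset.mul_sum]
      have h2 := hsg (X / q)
      have h3 : ((X / q : ℕ) : ℝ) ≤ X / q := Nat.cast_div_le
      calc Cp * C0 ^ 2 * (X / Real.log X ^ 2) * ∑ m ∈ Icc 1 (X / q), sg m ^ 2
          ≤ Cp * C0 ^ 2 * (X / Real.log X ^ 2) * (Cs * (X / q)) := by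
            gcongr
            exact h2.trans (by gcongr)
        _ = Cp * C0 ^ 2 * Cs * ((X ^ 2 / q) / Real.log X ^ 2) := by ring
        _ ≤ Cp * C0 ^ 2 * Cs * (q * V ^ 2) := by
            gcongr
            have h5 : (q : ℝ) * V ^ 2 = (x ^ 2 / q) / L ^ 2 := by rw [hV]; field_simp
            rw [h5, div_le_div_iff₀ (by positivity) (by positivity)]
            have h6 : L ^ 2 ≤ 4 * Real.log X ^ 2 := by nlinarith
            have h7 : 4 * (X : ℝ) ^ 2 ≤ x ^ 2 := by nlinarith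
            calc (X : ℝ) ^ 2 / q * L ^ 2 ≤ X ^ 2 / q * (4 * Real.log X ^ 2) := by gcongr
              _ = 4 * X ^ 2 / q * Real.log X ^ 2 := by ring
              _ ≤ x ^ 2 / q * Real.log X ^ 2 := by gcongr
    have e5 : C₃ * (q * V ^ 2) ≤ 2 * C₃ * (N * V ^ 2) := by
      calc C₃ * (q * V ^ 2) ≤ C₃ * ((2 * N) * V ^ 2) := by gcongr
        _ = _ := by ring
    refine le_trans ?_ e5
    rw [hC₃]
    linarith
  -- the total number
  have htot : ((∑ a ∈ Icc 1 N, pc x q a : ℕ) : ℝ) ≤ 4 * (N * V) := by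
    have h1 : ((∑ a ∈ Icc 1 N, pc x q a : ℕ) : ℝ) ≤ (Nat.primeCounting x : ℝ) := Nat.cast_le.2 (sum_pc x q N hNq)
    rw [Nat.floor_natCast, ← hL] at g2'
    calc ((∑ a ∈ Icc 1 N, pc x q a : ℕ) : ℝ) ≤ (Real.log 4 + 0.6) * x / L := h1.trans g2'
      _ ≤ 2 * x / L := by gcongr; linarith
      _ = 2 * (q * V) := by rw [hqV]; ring
      _ ≤ 2 * ((2 * N) * V) := by gcongr
      _ = _ := by ring
  -- comparison
  obtain ⟨G, hG⟩ : ∃ G : Finset ℕ, G = (Icc 1 N).filter (fun a => c1 / 48 * V ≤ (pc x q a : ℝ) ∧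
      (pc x q a : ℝ) ≤ C * V) := ⟨_, rfl⟩
  rw [← hG]
  obtain ⟨B, hB⟩ : ∃ B : Finset ℕ, B = (Icc 1 N).filter (fun a => C * V < (pc x q a : ℝ)) := ⟨_, rfl⟩
  have hpt : ∀ a ∈ Icc 1 N, ((cl X q a).card : ℝ) ≤ c1 / 48 * V + ((cl X q a).card : ℝ) ^ 2 / (K * V) +
      (if a ∈ G then K * V else 0) + (if a ∈ B then K * V else 0) := by
    intro a ha
    have hn : (0 : ℝ) ≤ ((cl X q a).card : ℝ) := Nat.cast_nonneg _
    have hKV : 0 < K * V := by positivity
    have hsq : 0 ≤ ((cl X q a).card : ℝ) ^ 2 / (K * V) := by positivity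
    have hi1 : (0 : ℝ) ≤ (if a ∈ G then K * V else 0) := by split_ifs <;> positivity
    have hi2 : (0 : ℝ) ≤ (if a ∈ B then K * V else 0) := by split_ifs <;> positivity
    have hcV : 0 < c1 / 48 * V := by positivity
    by_cases h7 : c1 / 48 * V ≤ ((cl X q a).card : ℝ)
    · by_cases h8 : ((cl X q a).card : ℝ) ≤ K * V
      · have h9 : c1 / 48 * V ≤ (pc x q a : ℝ) := h7.trans (by exact_mod_cast cl_le_pc hX2)
        by_cases h10 : (pc x q a : ℝ) ≤ C * V
        · have : a ∈ G := by rw [hG, mem_filter]; exact ⟨ha, h9, h10⟩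
          rw [if_pos this]
          linarith
        · have : a ∈ B := by rw [hB, mem_filter]; exact ⟨ha, not_le.1 h10⟩
          rw [if_pos this]
          linarith
      · have h9 : ((cl X q a).card : ℝ) ≤ ((cl X q a).card : ℝ) ^ 2 / (K * V) := by
          rw [le_div_iff₀ hKV]
          nlinarith [not_le.1 h8]
        linarith
    · linarith [not_le.1 h7]
  have hsum := Finset.sum_le_sum hpt
  rw [Finset.sum_add_distrib, Finset.sum_add_distrib, Finset.sum_add_distrib, Finset.sum_const, ← Finset.sum_div,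
    Nat.card_Icc, Nat.add_sub_cancel, nsmul_eq_mul, Finset.sum_ite_mem, Finset.sum_ite_mem,
    Finset.inter_eq_right.2 (by rw [hG]; exact filter_subset _ _), Finset.inter_eq_right.2 (by rw [hB]; exact filter_subset _ _),
    Finset.sum_const, Finset.sum_const, nsmul_eq_mul, nsmul_eq_mul] at hsum
  have hBc : (B.card : ℝ) * (C * V) ≤ 4 * (N * V) := by
    refine le_trans ?_ htot
    push_cast
    calc (B.card : ℝ) * (C * V) = ∑ _a ∈ B, C * V := by rw [Finset.sum_const, nsmul_eq_mul]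
      _ ≤ ∑ a ∈ B, (pc x q a : ℝ) := by
          apply Finset.sum_le_sum
          intro a ha
          rw [hB, mem_filter] at ha
          exact ha.2.le
      _ ≤ ∑ a ∈ Icc 1 N, (pc x q a : ℝ) := by
          apply Finset.sum_le_sum_of_subset_of_nonneg
          · rw [hB]; exact filter_subset _ _
          · intro a _ _
            exact Nat.cast_nonneg _
  have hBK : (B.card : ℝ) * (K * V) ≤ c1 / 48 * (N * V) := by
    have h1 : (B.card : ℝ) * (K * V) = (B.card : ℝ) * (C * V) * (c1 / 192) := by rw [hC]; field_simp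
    rw [h1]
    calc (B.card : ℝ) * (C * V) * (c1 / 192) ≤ 4 * (N * V) * (c1 / 192) := by gcongr
      _ = _ := by ring
  have h2K : (∑ a ∈ Icc 1 N, ((cl X q a).card : ℝ) ^ 2) / (K * V) ≤ c1 / 48 * (N * V) := by
    rw [div_le_iff₀ (by positivity)]
    push_cast at hM2
    refine hM2.trans (le_of_eq ?_)
    rw [hK]
    field_simp
    ring
  push_cast at hM1
  have hfin : c1 / 48 * (N * V) ≤ (G.card : ℝ) * (K * V) := by
    have e1 : (N : ℝ) * (c1 / 48 * V) = c1 / 48 * (N * V) := by ring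
    have e2 : c1 / 12 * (N * V) = 4 * (c1 / 48 * (N * V)) := by ring
    linarith
  have h3 : c1 / 48 / K * N * (K * V) = c1 / 48 * (N * V) := by field_simp
  have h4 : c1 / 48 / K * N * (K * V) ≤ (G.card : ℝ) * (K * V) := by rw [h3]; exact hfin
  exact le_of_mul_le_mul_right h4 (by positivity)

end Pool.Agent.U766.LP
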